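import Pool.Agent.Q74.BT.Stm3
import Pool.Agent.Q177.SF.Comp
import Pool.Agent.Q210.SF.CInj

/-! # Project BT, JOB CwMean: the mean number of places of coalescing walkers -/

set_option autoImplicit false

namespace Pool.Agent.Q92.BT

open Finset
open Pool.Agent.Q74.KP
open Pool.Agent.Q74.SF

/-- the number of places of a monotone configuration -/
theorem card_mono (k : ℕ) : ∀ z : Fin (k + 1) → ℤ, Monotone z →
    ((univ.image z).card : ℝ) = 1 + ∑ i : Fin k, if z i.succ ≠ z i.castSucc then (1 : ℝ) else 0 := by
  induction k with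
  | zero =>
    intro z _
    have : (univ.image z) = {z 0} := by
      ext x
      simp only [mem_image, mem_univ, true_and, mem_singleton]
      constructor
      · rintro ⟨i, rfl⟩
        have : i = 0 := Fin.ext (by omega)
        rw [this]
      · intro h
        exact ⟨0, h.symm⟩
    rw [this]
    simp
  | succ k ih =>
    intro z hz
    set z' : Fin (k + 1) → ℤ := fun i => z i.castSucc with hz'
    have hm : Monotone z' := fun i j hij => hz (Fin.castSucc_le_castSucc_iff.2 hij)
    have h1 : univ.image z = insert (z (Fin.last (k + 1))) (univ.image z') := by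
      ext x
      simp only [mem_image, mem_univ, true_and, mem_insert]
      constructor
      · rintro ⟨i, rfl⟩
        refine Fin.lastCases ?_ (fun j => ?_) i
        · left; rfl
        · right; exact ⟨j, rfl⟩
      · rintro (h | ⟨j, rfl⟩)
        · exact ⟨_, h.symm⟩
        · exact ⟨j.castSucc, rfl⟩
    have h2 := ih z' hm
    rw [Fin.sum_univ_castSucc]
    have h3 : ∀ i : Fin k, (z' i.succ ≠ z' i.castSucc) = (z i.castSucc.succ ≠ z i.castSucc.castSucc) := by
      intro i
      rw [hz']
      simp only [Fin.succ_castSucc]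
    by_cases hne : z (Fin.last k).succ ≠ z (Fin.last k).castSucc
    · have h4 : z (Fin.last (k + 1)) ∉ univ.image z' := by
        intro h
        simp only [mem_image, mem_univ, true_and] at h
        obtain ⟨j, hj⟩ := h
        apply hne
        have e1 : z' j ≤ z' (Fin.last k) := hm (Fin.le_last j)
        have e2 : z (Fin.last k).castSucc ≤ z (Fin.last k).succ := hz (Fin.castSucc_lt_succ (i := Fin.last k)).le
        have e3 : z (Fin.last k).succ = z (Fin.last (k + 1)) := by rw [Fin.succ_last]
        have e4 : z' (Fin.last k) = z (Fin.last k).castSucc := rfl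
        omega
      rw [h1, card_insert_of_notMem h4, if_pos hne]
      push_cast
      rw [h2]
      simp only [h3]
      ring
    · have h4 : z (Fin.last (k + 1)) ∈ univ.image z' := by
        simp only [mem_image, mem_univ, true_and]
        refine ⟨Fin.last k, ?_⟩
        rw [not_not, Fin.succ_last] at hne
        exact hne.symm
      rw [h1, insert_eq_of_mem h4, if_neg hne, h2]
      simp only [h3]
      ring

/-- two walkers -/
theorem NG_two (t : ℕ) : ∀ b : Fin 2 → ℤ, NG (fun _ => 1) t b = pq t (b 1 - b 0) := by
  have hne : (0 : Fin 2) ≠ 1 := by decide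
  have hnot : ∀ b : Fin 2 → ℤ, ¬ Function.Injective b → b 1 - b 0 = 0 := by
    intro b hb
    obtain ⟨i, j, hij, heq⟩ := exists_pair hb
    have hi : i = 0 := by
      rcases i with ⟨i, hi⟩
      rcases j with ⟨j, hj⟩
      rw [Fin.lt_def] at hij
      apply Fin.ext
      simp only [Fin.val_zero] at *
      omega
    have hj : j = 1 := by
      rcases i with ⟨i, hi⟩
      rcases j with ⟨j, hj⟩
      rw [Fin.lt_def] at hij
      apply Fin.ext
      simp only [Fin.val_one] at *
      omega
    rw [hi, hj] at heq
    omega
  induction t with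
  | zero =>
    intro b
    by_cases h : Function.Injective b
    · rw [NG_zero h, pq_init]
      intro h2
      exact hne (h (by omega))
    · rw [NG_not h, hnot b h, pq_zero]
  | succ n ih =>
    intro b
    by_cases h : Function.Injective b
    · rw [NG_succ h, ← pq_avg hne n (fun h2 => hne (h h2))]
      simp only [ih]
    · rw [NG_not h, hnot b h, pq_zero]

theorem CG_pair {k : ℕ} (i j : Fin k) (t : ℕ) (a : Fin k → ℤ) :
    CG (fun z => if z j ≠ z i then (1 : ℝ) else 0) t a = pq t (a j - a i) := by
  classical
  have h1 := Pool.Agent.Q177.SF.comp k 2 ![i, j] (fun w => if w 1 ≠ w 0 then (1 : ℝ) else 0) t a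
  have h2 : (fun z : Fin k → ℤ => (fun w : Fin 2 → ℤ => if w 1 ≠ w 0 then (1 : ℝ) else 0) (z ∘ ![i, j])) =
      fun z => if z j ≠ z i then (1 : ℝ) else 0 := by
    funext z
    simp
  rw [h2] at h1
  rw [h1]
  have h3 : (fun w : Fin 2 → ℤ => if w 1 ≠ w 0 then (1 : ℝ) else 0) =
      fun w => if Function.Injective w then (fun _ => (1 : ℝ)) w else 0 := by
    funext w
    by_cases hw : Function.Injective w
    · rw [if_pos hw, if_pos]
      intro h
      exact absurd (hw h) (by decide)
    · rw [if_neg hw, if_neg]
      rw [not_not]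
      obtain ⟨x, y, hxy, heq⟩ := exists_pair hw
      have hx : x = 0 := by
        rcases x with ⟨x, hx⟩
        rcases y with ⟨y, hy⟩
        rw [Fin.lt_def] at hxy
        apply Fin.ext
        simp only [Fin.val_zero] at *
        omega
      have hy : y = 1 := by
        rcases x with ⟨x, hx⟩
        rcases y with ⟨y, hy⟩
        rw [Fin.lt_def] at hxy
        apply Fin.ext
        simp only [Fin.val_one] at *
        omega
      rw [hx, hy] at heq
      exact heq.symm
  rw [h3]
  have h4 := Pool.Agent.Q210.SF.cinj 2 (fun _ => (1 : ℝ)) t (a ∘ ![i, j])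
  have h5 := NG_two t (a ∘ ![i, j])
  have h6 : pq t ((a ∘ ![i, j]) 1 - (a ∘ ![i, j]) 0) = pq t (a j - a i) := by simp
  rw [← h6, ← h5, ← h4]

theorem cwMean : Pool.Agent.Q74.BT.S_CwMean := by
  intro k t a ha
  rw [Pool.Agent.Q177.SF.cmono (k + 1) _ (fun z => (1 : ℝ) + ∑ i : Fin k, if z i.succ ≠ z i.castSucc then (1 : ℝ) else 0)
    (fun z hz => card_mono k z hz) t a ha, CG_add (fun _ => (1 : ℝ)), CG_const, CG_sum]
  congr 1
  exact sum_congr rfl fun i _ => CG_pair _ _ t a

end Pool.Agent.Q92.BT
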