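import Pool.Agent.Q74.BT.Stm3
import Pool.Agent.Q177.SF.Comp

/-! # Project BT, JOB CwNet: coalescing walkers from a net and from the full segment -/

set_option autoImplicit false

namespace Pool.Agent.Q92.BT

open Finset
open Pool.Agent.Q74.KP
open Pool.Agent.Q74.SF
open Pool.Agent.Q177.SF

/-! ### the function `pq` -/

/-- the binomial distribution, centred -/
noncomputable def fb (r j : ℕ) : ℝ := ((2 * r).choose (r + j) : ℝ) / 4 ^ r

theorem fb_nonneg (r j : ℕ) : 0 ≤ fb r j := by unfold fb; positivity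

theorem fb_succ (r j : ℕ) : fb (r + 1) (j + 1) = (fb r (j + 2) + 2 * fb r (j + 1) + fb r j) / 4 := by
  unfold fb
  have h1 : (2 * (r + 1)).choose (r + 1 + (j + 1)) =
      (2 * r).choose (r + j) + 2 * (2 * r).choose (r + (j + 1)) + (2 * r).choose (r + (j + 2)) := by
    rw [show 2 * (r + 1) = 2 * r + 1 + 1 by ring, show r + 1 + (j + 1) = (r + j + 1) + 1 by ring,
      Nat.choose_succ_succ, Nat.choose_succ_succ, Nat.choose_succ_succ (2 * r) (r + j + 1),
      show r + (j + 1) = r + j + 1 by ring, show r + (j + 2) = r + j + 1 + 1 by ring]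
    ring
  rw [h1]
  push_cast
  rw [pow_succ]
  field_simp
  ring

theorem fb_succ_zero (r : ℕ) : fb (r + 1) 0 = (2 * fb r 1 + 2 * fb r 0) / 4 := by
  unfold fb
  rcases r with _ | r
  · norm_num [Nat.choose]
  · have h1 : (2 * (r + 1 + 1)).choose (r + 1 + 1 + 0) =
        2 * (2 * (r + 1)).choose (r + 1 + 0) + 2 * (2 * (r + 1)).choose (r + 1 + 1) := by
      rw [show 2 * (r + 1 + 1) = 2 * (r + 1) + 1 + 1 by ring, show r + 1 + 1 + 0 = (r + 1) + 1 by ring,
        Nat.choose_succ_succ (2 * (r + 1) + 1) (r + 1), Nat.choose_succ_succ (2 * (r + 1)) r,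
        Nat.choose_succ_succ (2 * (r + 1)) (r + 1)]
      have h2 : (2 * (r + 1)).choose r = (2 * (r + 1)).choose (r + 1 + 1) := by
        rw [← Nat.choose_symm (by omega : r ≤ 2 * (r + 1))]
        congr 1
        omega
      rw [h2]
      simp only [Nat.succ_eq_add_one, add_zero]
      ring
    rw [h1]
    push_cast
    rw [pow_succ (4 : ℝ) (r + 1)]
    field_simp
    ring

theorem fb_ratio (r j : ℕ) : fb r (j + 1) * (r + j + 1) = fb r j * ((r : ℝ) - j) ∨ r < j := by
  rcases Nat.lt_or_ge r j with h | h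
  · right; exact h
  · left
    unfold fb
    have h1 := Nat.choose_succ_right_eq (2 * r) (r + j)
    have h2 : ((2 * r).choose (r + j + 1) : ℝ) * (r + j + 1) = (2 * r).choose (r + j) * ((r : ℝ) - j) := by
      have h3 : (2 * r - (r + j) : ℕ) = r - j := by omega
      rw [h3] at h1
      have h4 : (((2 * r).choose (r + j + 1) * (r + j + 1) : ℕ) : ℝ) = (((2 * r).choose (r + j) * (r - j) : ℕ) : ℝ) := by
        rw [h1]
      push_cast [Nat.cast_sub h] at h4
      exact h4
    rw [div_mul_eq_mul_div, div_mul_eq_mul_div, show r + (j + 1) = r + j + 1 by ring, h2]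

theorem fb_anti (r j : ℕ) : fb r (j + 1) ≤ fb r j := by
  rcases fb_ratio r j with h | h
  · have h0 := fb_nonneg r (j + 1)
    have h1 := fb_nonneg r j
    have hr : (0 : ℝ) ≤ r := Nat.cast_nonneg _
    have hj : (0 : ℝ) ≤ j := Nat.cast_nonneg _
    by_contra hc
    push Not at hc
    nlinarith
  · have : fb r (j + 1) = 0 := by
      unfold fb
      rw [Nat.choose_eq_zero_of_lt (by omega)]
      simp
    rw [this]
    exact fb_nonneg _ _

theorem fb_low {r : ℕ} (hr : 0 < r) (j : ℕ) : fb r 0 * (1 - (j : ℝ) ^ 2 / r) ≤ fb r j := by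
  have hr' : (0 : ℝ) < r := by exact_mod_cast hr
  induction j with
  | zero => simp
  | succ j ih =>
    have h0 := fb_nonneg r 0
    have h1 := fb_nonneg r (j + 1)
    have hj : (0 : ℝ) ≤ j := Nat.cast_nonneg _
    rcases fb_ratio r j with h | h
    · -- ratio
      have hx : (1 : ℝ) - (((j + 1 : ℕ) : ℝ)) ^ 2 / r = 1 - (j : ℝ) ^ 2 / r - (2 * j + 1) / r := by
        push_cast
        field_simp
        ring
      rw [hx]
      by_cases hc : (j : ℝ) ≤ r
      · have h2 : fb r (j + 1) = fb r j * (((r : ℝ) - j) / (r + j + 1)) := by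
          rw [mul_div_assoc', ← h]
          field_simp
        have h3 : 1 - (2 * (j : ℝ) + 1) / r ≤ ((r : ℝ) - j) / (r + j + 1) := by
          have e : ((r : ℝ) - j) / (r + j + 1) = 1 - (2 * j + 1) / (r + j + 1) := by
            field_simp
            ring
          rw [e]
          have : (2 * (j : ℝ) + 1) / (r + j + 1) ≤ (2 * j + 1) / r := by
            apply div_le_div_of_nonneg_left (by positivity) hr' (by linarith)
          linarith
        have h4 : 0 ≤ ((r : ℝ) - j) / (r + j + 1) := div_nonneg (by linarith) (by positivity)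
        have h5 : ((r : ℝ) - j) / (r + j + 1) ≤ 1 := by
          rw [div_le_one (by positivity)]
          linarith
        rw [h2]
        have h6 : fb r 0 * (1 - (j : ℝ) ^ 2 / r) * (((r : ℝ) - j) / (r + j + 1)) ≤ fb r j * (((r : ℝ) - j) / (r + j + 1)) :=
          mul_le_mul_of_nonneg_right ih h4
        refine le_trans ?_ h6
        rw [mul_assoc]
        apply mul_le_mul_of_nonneg_left _ h0
        have hy : 0 ≤ (2 * (j : ℝ) + 1) / r := by positivity
        have hx2 : 0 ≤ (j : ℝ) ^ 2 / r := by positivity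
        rcases le_total 0 (1 - (j : ℝ) ^ 2 / r) with h7 | h7
        · have h8 : (1 - (j : ℝ) ^ 2 / r) * (1 - (2 * (j : ℝ) + 1) / r) ≤
              (1 - (j : ℝ) ^ 2 / r) * (((r : ℝ) - j) / (r + j + 1)) := mul_le_mul_of_nonneg_left h3 h7
          nlinarith [mul_nonneg hx2 hy]
        · nlinarith
      · push Not at hc
        have h9 : (1 : ℝ) - (j : ℝ) ^ 2 / r - (2 * j + 1) / r ≤ 0 := by
          have h10 : (1 : ℝ) ≤ (2 * j + 1) / r := by
            rw [le_div_iff₀ hr']
            linarith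
          have h11 : 0 ≤ (j : ℝ) ^ 2 / r := by positivity
          linarith
        have := mul_nonpos_of_nonneg_of_nonpos h0 h9
        linarith
    · have h9 : (1 : ℝ) - (((j + 1 : ℕ) : ℝ)) ^ 2 / r ≤ 0 := by
        have h10 : (1 : ℝ) ≤ (((j + 1 : ℕ) : ℝ)) ^ 2 / r := by
          rw [le_div_iff₀ hr']
          have : (r : ℝ) ≤ j := by exact_mod_cast h.le
          push_cast
          nlinarith
        linarith
      have := mul_nonpos_of_nonneg_of_nonpos h0 h9
      linarith

/-- the formula for `pq` -/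
theorem pq_sum (r : ℕ) : ∀ g : ℕ, pq r (g : ℤ) = ∑ j ∈ range g, (fb r j + fb r (j + 1)) := by
  induction r with
  | zero =>
    intro g
    rcases g with _ | g
    · rw [range_zero, sum_empty, Nat.cast_zero, pq_zero]
    · rw [pq_init (by omega), sum_range_succ']
      have h1 : ∑ k ∈ range g, (fb 0 (k + 1) + fb 0 (k + 1 + 1)) = 0 := by
        apply sum_eq_zero
        intro k _
        unfold fb
        simp
      rw [h1]
      unfold fb
      simp
  | succ r ih =>
    intro g
    rcases g with _ | g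
    · rw [range_zero, sum_empty, Nat.cast_zero, pq_zero]
    · rw [pq_succ r (by omega)]
      have e1 : ((g + 1 : ℕ) : ℤ) + 1 = ((g + 2 : ℕ) : ℤ) := by push_cast; ring
      have e2 : ((g + 1 : ℕ) : ℤ) - 1 = ((g : ℕ) : ℤ) := by push_cast; ring
      rw [e1, e2, ih, ih, ih]
      clear e1 e2 ih
      induction g with
      | zero =>
        simp only [sum_range_succ, range_zero, sum_empty, zero_add]
        have h1 := fb_succ_zero r
        have h2 := fb_succ r 0
        simp only [zero_add] at h2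
        rw [h1, h2]
        ring
      | succ g ih =>
        have s1 : ∑ j ∈ range (g + 1 + 2), (fb r j + fb r (j + 1)) =
            ∑ j ∈ range (g + 2), (fb r j + fb r (j + 1)) + (fb r (g + 2) + fb r (g + 3)) := by
          rw [show g + 1 + 2 = g + 2 + 1 by ring, sum_range_succ]
        have s2 : ∑ j ∈ range (g + 2), (fb r j + fb r (j + 1)) =
            ∑ j ∈ range (g + 1), (fb r j + fb r (j + 1)) + (fb r (g + 1) + fb r (g + 2)) := by
          rw [show g + 2 = g + 1 + 1 by ring, sum_range_succ]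
        have s3 : ∑ j ∈ range (g + 1), (fb r j + fb r (j + 1)) =
            ∑ j ∈ range g, (fb r j + fb r (j + 1)) + (fb r g + fb r (g + 1)) := by
          rw [sum_range_succ]
        have s4 : ∑ j ∈ range (g + 1 + 1), (fb (r + 1) j + fb (r + 1) (j + 1)) =
            ∑ j ∈ range (g + 1), (fb (r + 1) j + fb (r + 1) (j + 1)) + (fb (r + 1) (g + 1) + fb (r + 1) (g + 1 + 1)) := by
          rw [sum_range_succ]
        have f1 := fb_succ r g
        have f2 := fb_succ r (g + 1)
        rw [s4, ← ih, s1, f1, f2, show g + 1 + 1 = g + 2 by ring, s2, s3, show g + 1 + 2 = g + 3 by ring]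
        ring

theorem pq_one (r : ℕ) : pq r 1 = fb r 0 + fb r 1 := by
  have h := pq_sum r 1
  rw [Nat.cast_one, sum_range_one] at h
  exact h

theorem pq_one_le (r : ℕ) : pq r 1 ≤ 2 * fb r 0 := by
  rw [pq_one]
  have := fb_anti r 0
  rw [zero_add] at this
  linarith

theorem fb_zero_sq (r : ℕ) : fb r 0 ^ 2 * (2 * r + 1) ≤ 1 := by
  induction r with
  | zero => unfold fb; simp
  | succ r ih =>
    have h1 := fb_succ_zero r
    have h2 : fb r 1 * (r + 1) = fb r 0 * r := by
      rcases fb_ratio r 0 with h | h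
      · simpa using h
      · omega
    have hr : (0 : ℝ) ≤ r := Nat.cast_nonneg _
    have h3 : fb (r + 1) 0 = fb r 0 * ((2 * r + 1) / (2 * r + 2)) := by
      have e : fb r 1 = fb r 0 * r / (r + 1) := by
        rw [eq_div_iff (by positivity), h2]
      rw [h1, e]
      field_simp
      ring
    rw [h3]
    have h4 : (fb r 0 * ((2 * (r : ℝ) + 1) / (2 * r + 2))) ^ 2 * (2 * ((r + 1 : ℕ) : ℝ) + 1) =
        (fb r 0 ^ 2 * (2 * r + 1)) * ((2 * r + 1) * (2 * r + 3) / (2 * r + 2) ^ 2) := by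
      push_cast
      field_simp
      ring
    rw [h4]
    have h5 : (2 * (r : ℝ) + 1) * (2 * r + 3) / (2 * r + 2) ^ 2 ≤ 1 := by
      rw [div_le_one (by positivity)]
      nlinarith
    have h6 : 0 ≤ (2 * (r : ℝ) + 1) * (2 * r + 3) / (2 * r + 2) ^ 2 := by positivity
    calc _ ≤ 1 * ((2 * (r : ℝ) + 1) * (2 * r + 3) / (2 * r + 2) ^ 2) := mul_le_mul_of_nonneg_right ih h6
      _ ≤ 1 := by linarith

/-- upper bound for `pq r 1` -/
theorem pq_one_bd {r t : ℕ} (ht : 1 ≤ t) (h : (t : ℝ) ≤ 2 * r) : pq r 1 ≤ 2 / √t := by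
  have ht' : (0 : ℝ) < t := by exact_mod_cast ht
  have h1 := fb_zero_sq r
  have h0 := fb_nonneg r 0
  have h2 : fb r 0 ≤ 1 / √t := by
    rw [le_div_iff₀ (Real.sqrt_pos.2 ht')]
    have h3 : (fb r 0 * √t) ^ 2 ≤ 1 := by
      rw [mul_pow, Real.sq_sqrt ht'.le]
      nlinarith [sq_nonneg (fb r 0)]
    have h4 : 0 ≤ fb r 0 * √t := by positivity
    nlinarith
  have h3 := pq_one_le r
  have e : 2 / √(t : ℝ) = 2 * (1 / √t) := by ring
  rw [e]
  linarith

/-- `pq` is almost linear for small distances -/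
theorem pq_lin {r : ℕ} (hr : 0 < r) (g : ℕ) : (g : ℝ) * pq r 1 - pq r (g : ℤ) ≤ pq r 1 * (g * ((g : ℝ) ^ 2 / r)) := by
  have hr' : (0 : ℝ) < r := by exact_mod_cast hr
  rw [pq_sum r g]
  have h0 := fb_nonneg r 0
  have hp := pq_one_le r
  have hp0 := pq_nonneg r 1
  have h1 : ∀ j ∈ range g, pq r 1 - pq r 1 * ((g : ℝ) ^ 2 / r) ≤ fb r j + fb r (j + 1) := by
    intro j hj
    rw [mem_range] at hj
    have h2 := fb_low hr j
    have h3 := fb_low hr (j + 1)
    have hg : ((j + 1 : ℕ) : ℝ) ≤ g := by exact_mod_cast hj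
    have hj0 : (0 : ℝ) ≤ j := Nat.cast_nonneg _
    have hx : (j : ℝ) ^ 2 / r ≤ (g : ℝ) ^ 2 / r := by
      apply div_le_div_of_nonneg_right _ hr'.le
      push_cast at hg
      nlinarith
    have hy : (((j + 1 : ℕ) : ℝ)) ^ 2 / r ≤ (g : ℝ) ^ 2 / r := by
      apply div_le_div_of_nonneg_right _ hr'.le
      push_cast at hg ⊢
      nlinarith
    have h4 : fb r 0 * (1 - (g : ℝ) ^ 2 / r) ≤ fb r j :=
      (mul_le_mul_of_nonneg_left (by linarith) h0).trans h2
    have h5 : fb r 0 * (1 - (g : ℝ) ^ 2 / r) ≤ fb r (j + 1) :=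
      (mul_le_mul_of_nonneg_left (by linarith) h0).trans h3
    rcases le_total 0 (1 - (g : ℝ) ^ 2 / r) with h6 | h6
    · have h7 : pq r 1 * (1 - (g : ℝ) ^ 2 / r) ≤ 2 * fb r 0 * (1 - (g : ℝ) ^ 2 / r) := mul_le_mul_of_nonneg_right hp h6
      linarith
    · have h7 : pq r 1 * (1 - (g : ℝ) ^ 2 / r) ≤ 0 := mul_nonpos_of_nonneg_of_nonpos hp0 h6
      have h8 := fb_nonneg r j
      have h9 := fb_nonneg r (j + 1)
      linarith
  have h2 := sum_le_sum h1
  rw [sum_const, card_range, nsmul_eq_mul] at h2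
  nlinarith

/-- `pq r 1` decreases slowly -/
theorem pq_step {r : ℕ} (hr : 0 < r) : pq r 1 - pq (r + 1) 1 ≤ pq r 1 / r := by
  have hr' : (0 : ℝ) < r := by exact_mod_cast hr
  have h1 := pq_sum r 2
  have h2 := pq_succ r (d := 1) (by norm_num)
  rw [show (1 : ℤ) - 1 = 0 by norm_num, pq_zero, show (1 : ℤ) + 1 = 2 by norm_num] at h2
  rw [sum_range_succ, sum_range_one] at h1
  push_cast at h1
  rw [h2, h1, pq_one]
  have h3 := fb_low hr 2
  have h0 := fb_nonneg r 0
  have h4 := fb_nonneg r 1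
  have h5 : fb r 0 - fb r (1 + 1) ≤ fb r 0 * (4 / r) := by
    have e : fb r 0 * (1 - ((2 : ℕ) : ℝ) ^ 2 / r) = fb r 0 - fb r 0 * (4 / r) := by push_cast; ring
    rw [e] at h3
    linarith
  have h6 : fb r 0 * (4 / r) = 4 * (fb r 0 / r) := by ring
  have h7 : (fb r 0 + fb r 1) / r = fb r 0 / r + fb r 1 / r := by ring
  have h8 : 0 ≤ fb r 1 / r := by positivity
  rw [h7]
  have e0 : fb r (0 + 1) = fb r 1 := rfl
  rw [e0]
  linarith

theorem pq_time {r : ℕ} (hr : 0 < r) (s : ℕ) : pq r 1 - pq (r + s) 1 ≤ s * (pq r 1 / r) := by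
  have hr' : (0 : ℝ) < r := by exact_mod_cast hr
  induction s with
  | zero => simp
  | succ s ih =>
    have h1 := pq_step (show 0 < r + s by omega)
    have h2 : pq (r + s) 1 ≤ pq r 1 := pq_anti (by omega) 1
    have h3 : pq (r + s) 1 / ((r + s : ℕ) : ℝ) ≤ pq r 1 / r := by
      apply div_le_div₀ (pq_nonneg _ _) h2 hr'
      push_cast
      have : (0 : ℝ) ≤ s := Nat.cast_nonneg _
      linarith
    rw [← add_assoc]
    push_cast
    linarith

/-! ### subfamilies, times, translations -/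

/-- the number of places -/
noncomputable def nb {k : ℕ} (z : Fin k → ℤ) : ℕ := (univ.image z).card

theorem nb_comp {k k' : ℕ} (e : Fin k' → Fin k) (z : Fin k → ℤ) : nb (z ∘ e) ≤ nb z := by
  unfold nb
  apply card_le_card
  intro x hx
  rw [mem_image] at hx ⊢
  obtain ⟨i, _, rfl⟩ := hx
  exact ⟨e i, mem_univ _, rfl⟩

theorem phi_diff {φ : ℕ → ℝ} (hφ : ∀ x, |φ x| ≤ 1) {x y : ℕ} (h : y ≤ x) : |φ x - φ y| ≤ 2 * ((x : ℝ) - y) := by
  rcases Nat.eq_or_lt_of_le h with h1 | h1
  · rw [h1]; simp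
  · have h2 : ((y + 1 : ℕ) : ℝ) ≤ x := by exact_mod_cast h1
    push_cast at h2
    have h3 := abs_sub (φ x) (φ y)
    have h4 := hφ x
    have h5 := hφ y
    linarith

theorem CG_abs_le {k : ℕ} {F G : (Fin k → ℤ) → ℝ} (h : ∀ z, |F z| ≤ G z) (t : ℕ) (a : Fin k → ℤ) :
    |CG F t a| ≤ CG G t a := by
  rw [abs_le]
  constructor
  · have h1 := CG_mono (F := fun z => (-1) * G z) (G := F) (fun z => by
      have := (abs_le.1 (h z)).1
      linarith) t a
    rw [CG_mul] at h1
    linarith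
  · exact CG_mono (fun z => (abs_le.1 (h z)).2) t a

/-- subfamilies -/
theorem sub_diff {k k' : ℕ} (e : Fin k' → Fin k) {φ : ℕ → ℝ} (hφ : ∀ x, |φ x| ≤ 1) (t : ℕ) (a : Fin k → ℤ) :
    |CG (fun z => φ (nb z)) t a - CG (fun z => φ (nb z)) t (a ∘ e)| ≤
      2 * (CG (fun z => (nb z : ℝ)) t a - CG (fun z => (nb z : ℝ)) t (a ∘ e)) := by
  rw [← comp k k' e (fun z => φ (nb z)) t a, ← comp k k' e (fun z => (nb z : ℝ)) t a, ← CG_sub, ← CG_sub, ← CG_mul]
  apply CG_abs_le
  intro z
  exact phi_diff hφ (nb_comp e z)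

theorem CG_mono_nb {k : ℕ} {F G : (Fin k → ℤ) → ℝ} (n : ℕ) (h : ∀ z, nb z ≤ n → F z ≤ G z) (t : ℕ) :
    ∀ a, nb a ≤ n → CG F t a ≤ CG G t a := by
  induction t with
  | zero => exact h
  | succ t ih =>
    intro a ha
    rw [CG_succ, CG_succ]
    refine div_le_div_of_nonneg_right (sum_le_sum fun B _ => ih _ (le_trans ?_ ha)) (by positivity)
    unfold nb
    have e : univ.image (fun i => a i + if a i ∈ B then 1 else 0) =
        (univ.image a).image (fun x => x + if x ∈ B then 1 else 0) := by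
      rw [image_image]
      rfl
    rw [e]
    exact card_image_le

/-- times -/
theorem time_diff {k : ℕ} {φ : ℕ → ℝ} (hφ : ∀ x, |φ x| ≤ 1) (r s : ℕ) (a : Fin k → ℤ) :
    |CG (fun z => φ (nb z)) r a - CG (fun z => φ (nb z)) (r + s) a| ≤
      2 * (CG (fun z => (nb z : ℝ)) r a - CG (fun z => (nb z : ℝ)) (r + s) a) := by
  rw [← CG_time (fun z => φ (nb z)) s r a, ← CG_time (fun z => (nb z : ℝ)) s r a, ← CG_sub, ← CG_sub, ← CG_mul]
  apply CG_abs_le
  intro z
  have h1 : CG (fun w => φ (nb w) + 2 * (nb w : ℝ)) s z ≤ φ (nb z) + 2 * (nb z : ℝ) := by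
    have h2 := CG_mono_nb (F := fun w => φ (nb w) + 2 * (nb w : ℝ)) (G := fun _ : Fin k → ℤ => φ (nb z) + 2 * (nb z : ℝ))
      (nb z) (fun w hw => by
        have := (abs_le.1 (phi_diff hφ hw)).1
        linarith) s z le_rfl
    rwa [CG_const] at h2
  have h3 : CG (fun w => (-1) * φ (nb w) + 2 * (nb w : ℝ)) s z ≤ (-1) * φ (nb z) + 2 * (nb z : ℝ) := by
    have h2 := CG_mono_nb (F := fun w => (-1) * φ (nb w) + 2 * (nb w : ℝ))
      (G := fun _ : Fin k → ℤ => (-1) * φ (nb z) + 2 * (nb z : ℝ))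
      (nb z) (fun w hw => by
        have := (abs_le.1 (phi_diff hφ hw)).2
        linarith) s z le_rfl
    rwa [CG_const] at h2
  rw [CG_add (fun w => φ (nb w)) (fun w => 2 * (nb w : ℝ)), CG_mul] at h1
  rw [CG_add (fun w => (-1) * φ (nb w)) (fun w => 2 * (nb w : ℝ)), CG_mul, CG_mul] at h3
  rw [abs_le]
  constructor <;> linarith

/-- translations -/
theorem CG_shift {k : ℕ} (F : (Fin k → ℤ) → ℝ) (c : ℤ) (hF : ∀ z : Fin k → ℤ, F (fun i => z i + c) = F z) (t : ℕ) :
    ∀ a : Fin k → ℤ, CG F t (fun i => a i + c) = CG F t a := by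
  induction t with
  | zero => exact hF
  | succ t ih =>
    intro a
    rw [CG_succ, CG_succ]
    have h1 : univ.image (fun i => a i + c) = (univ.image a).image (fun x => x + c) := by
      rw [image_image]
      rfl
    have h2 : (univ.image (fun i => a i + c)).card = (univ.image a).card := by
      rw [h1, card_image_of_injective _ (add_left_injective c)]
    rw [h2]
    congr 1
    refine sum_nbij' (fun B => B.image (fun x => x - c)) (fun B => B.image (fun x => x + c)) ?_ ?_ ?_ ?_ ?_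
    · intro B hB
      rw [mem_powerset] at hB ⊢
      intro x hx
      rw [mem_image] at hx
      obtain ⟨y, hy, rfl⟩ := hx
      have h3 := hB hy
      rw [mem_image] at h3 ⊢
      obtain ⟨i, _, rfl⟩ := h3
      exact ⟨i, mem_univ _, by ring⟩
    · intro B hB
      rw [mem_powerset] at hB ⊢
      intro x hx
      rw [mem_image] at hx
      obtain ⟨y, hy, rfl⟩ := hx
      have h3 := hB hy
      rw [mem_image] at h3 ⊢
      obtain ⟨i, _, rfl⟩ := h3
      exact ⟨i, mem_univ _, rfl⟩
    · intro B _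
      rw [image_image]
      ext x
      rw [mem_image]
      constructor
      · rintro ⟨y, hy, h⟩
        have h' : y - c + c = x := h
        have : y = x := by omega
        rwa [← this]
      · intro hx
        exact ⟨x, hx, by change x - c + c = x; ring⟩
    · intro B _
      rw [image_image]
      ext x
      rw [mem_image]
      constructor
      · rintro ⟨y, hy, h⟩
        have h' : y + c - c = x := h
        have : y = x := by omega
        rwa [← this]
      · intro hx
        exact ⟨x, hx, by change x + c - c = x; ring⟩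
    · intro B _
      refine Eq.trans ?_ (ih _)
      congr 1
      funext i
      have h3 : (a i ∈ B.image (fun x => x - c)) ↔ a i + c ∈ B := by
        rw [mem_image]
        constructor
        · rintro ⟨x, hx, h4⟩
          have : x = a i + c := by omega
          rwa [← this]
        · intro h4
          exact ⟨_, h4, by ring⟩
      by_cases h4 : a i + c ∈ B
      · rw [if_pos h4, if_pos (h3.2 h4)]
        ring
      · rw [if_neg h4, if_neg (fun h5 => h4 (h3.1 h5))]
        ring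

theorem nb_shift {k : ℕ} (z : Fin k → ℤ) (c : ℤ) : nb (fun i => z i + c) = nb z := by
  unfold nb
  have h1 : univ.image (fun i => z i + c) = (univ.image z).image (fun x => x + c) := by
    rw [image_image]
    rfl
  rw [h1, card_image_of_injective _ (add_left_injective c)]

/-- the segment -/
def seg (m : ℕ) : Fin (m + 1) → ℤ := fun i => (i : ℤ)

theorem seg_mono (m : ℕ) : Monotone (seg m) := by
  intro i j h
  unfold seg
  have : (i : ℕ) ≤ (j : ℕ) := h
  omega

theorem mean_seg (h : Pool.Agent.Q74.BT.S_CwMean) (m t : ℕ) :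
    CG (fun z => (nb z : ℝ)) t (seg m) = 1 + m * pq t 1 := by
  have h1 := h m t (seg m) (seg_mono m)
  unfold nb
  rw [h1]
  congr 1
  have h2 : ∀ i : Fin m, pq t (seg m i.succ - seg m i.castSucc) = pq t 1 := by
    intro i
    congr 1
    unfold seg
    rw [Fin.val_succ, Fin.val_castSucc]
    push_cast
    ring
  rw [sum_congr rfl (fun i _ => h2 i), sum_const, card_univ, Fintype.card_fin, nsmul_eq_mul]

/-- two segments -/
theorem seg_diff (h : Pool.Agent.Q74.BT.S_CwMean) {φ : ℕ → ℝ} (hφ : ∀ x, |φ x| ≤ 1) (r : ℕ) {m n : ℕ} (hmn : m ≤ n) :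
    |CG (fun z => φ (nb z)) r (seg n) - CG (fun z => φ (nb z)) r (seg m)| ≤ 2 * (((n : ℝ) - m) * pq r 1) := by
  have h1 := sub_diff (Fin.castLE (by omega : m + 1 ≤ n + 1)) hφ r (seg n)
  have h2 : seg n ∘ Fin.castLE (by omega : m + 1 ≤ n + 1) = seg m := by
    funext i
    rfl
  rw [h2, mean_seg h, mean_seg h] at h1
  refine h1.trans (le_of_eq ?_)
  ring

theorem tel (k : ℕ) : ∀ a : Fin (k + 1) → ℤ,
    ∑ i : Fin k, ((a i.succ : ℝ) - a i.castSucc) = (a (Fin.last k) : ℝ) - a 0 := by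
  induction k with
  | zero =>
    intro a
    simp
  | succ k ih =>
    intro a
    rw [Fin.sum_univ_castSucc]
    have h1 := ih (fun i => a i.castSucc)
    simp only [Fin.succ_castSucc] at h1 ⊢
    rw [h1]
    rw [Fin.succ_last, Fin.castSucc_zero]
    ring

theorem cwNet (h : Pool.Agent.Q74.BT.S_CwMean) : Pool.Agent.Q74.BT.S_CwNet := by
  intro M₀ ε hM hε
  refine ⟨min (1 / 2) (ε / (12 * (M₀ + 1))), by positivity, 1, ?_⟩
  set δ := min (1 / 2) (ε / (12 * (M₀ + 1))) with hδ
  have hδ0 : 0 < δ := by positivity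
  have hδ1 : δ ≤ 1 / 2 := min_le_left _ _
  have hδ2 : δ ≤ ε / (12 * (M₀ + 1)) := min_le_right _ _
  intro r t ht hrt hr m hm k a ha hG hgap φ hφ
  change |CG (fun z => φ (nb z)) r a - CG (fun z => φ (nb z)) t (seg m)| ≤ ε
  have ht0 : (0 : ℝ) < t := by exact_mod_cast ht
  have hst : 0 < √(t : ℝ) := Real.sqrt_pos.2 ht0
  have hst2 : √(t : ℝ) * √t = t := Real.mul_self_sqrt ht0.le
  have hr2 : (t : ℝ) ≤ 2 * r := by nlinarith
  have hr0 : (0 : ℝ) < r := by linarith
  have hr0' : 0 < r := by exact_mod_cast hr0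
  have hp := pq_one_bd ht hr2
  have hp0 := pq_nonneg r 1
  -- the length
  have hlast : a 0 ≤ a (Fin.last k) := ha (Fin.zero_le _)
  obtain ⟨G, hGe⟩ : ∃ G : ℕ, a (Fin.last k) = a 0 + G := ⟨(a (Fin.last k) - a 0).toNat, by omega⟩
  have hGr : (a (Fin.last k) : ℝ) - a 0 = G := by
    rw [hGe]
    push_cast
    ring
  rw [hGr] at hG
  have hG1 := (abs_le.1 hG).1
  have hG2 := (abs_le.1 hG).2
  have hGle : (G : ℝ) ≤ (M₀ + δ) * √t := by
    rw [add_mul]
    linarith
  -- step 1: from the net to the segment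
  have hmem : ∀ i : Fin (k + 1), (a i - a 0).toNat < G + 1 := by
    intro i
    have h1 : a i ≤ a (Fin.last k) := ha (Fin.le_last i)
    omega
  let e : Fin (k + 1) → Fin (G + 1) := fun i => ⟨(a i - a 0).toNat, hmem i⟩
  have he : (fun i => seg G i + a 0) ∘ e = a := by
    funext i
    have h1 : a 0 ≤ a i := ha (Fin.zero_le i)
    change (((a i - a 0).toNat : ℕ) : ℤ) + a 0 = a i
    omega
  have hs1 := sub_diff e hφ r (fun i => seg G i + a 0)
  rw [he, CG_shift (fun z => φ (nb z)) (a 0) (fun z => by simp only [nb_shift]) r (seg G),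
    CG_shift (fun z => (nb z : ℝ)) (a 0) (fun z => by simp only [nb_shift]) r (seg G), mean_seg h] at hs1
  have hma : CG (fun z => (nb z : ℝ)) r a = 1 + ∑ i : Fin k, pq r (a i.succ - a i.castSucc) := h k r a ha
  rw [hma] at hs1
  -- the gaps
  have hgap' : ∀ i : Fin k, ∃ g : ℕ, a i.succ - a i.castSucc = (g : ℤ) := by
    intro i
    have h1 : a i.castSucc ≤ a i.succ := ha (Fin.castSucc_lt_succ (i := i)).le
    exact ⟨(a i.succ - a i.castSucc).toNat, by omega⟩
  choose g hg using hgap'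
  have hgr : ∀ i : Fin k, (a i.succ : ℝ) - a i.castSucc = g i := by
    intro i
    have := hg i
    have h2 : ((a i.succ - a i.castSucc : ℤ) : ℝ) = ((g i : ℤ) : ℝ) := by rw [this]
    push_cast at h2
    exact h2
  have hsum : ∑ i : Fin k, (g i : ℝ) = G := by
    rw [← hGr, ← sum_congr rfl (fun i _ => hgr i)]
    exact tel k a
  have hd1 : (G : ℝ) * pq r 1 - ∑ i : Fin k, pq r (a i.succ - a i.castSucc) ≤ pq r 1 * (G * (2 * δ ^ 2)) := by
    rw [← hsum, sum_mul, ← sum_sub_distrib, sum_mul, mul_sum]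
    apply sum_le_sum
    intro i _
    rw [hg i]
    refine (pq_lin hr0' (g i)).trans ?_
    apply mul_le_mul_of_nonneg_left _ hp0
    apply mul_le_mul_of_nonneg_left _ (Nat.cast_nonneg _)
    have h1 := hgap i
    rw [hgr i] at h1
    have h2 : (0 : ℝ) ≤ g i := Nat.cast_nonneg _
    have h3 : (g i : ℝ) ^ 2 ≤ δ ^ 2 * t := by
      have : (g i : ℝ) ^ 2 ≤ (δ * √t) ^ 2 := by
        apply pow_le_pow_left₀ h2 h1
      rw [mul_pow, Real.sq_sqrt ht0.le] at this
      exact this
    rw [div_le_iff₀ hr0]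
    nlinarith [sq_nonneg δ]
  have hb1 : 2 * (1 + (G : ℝ) * pq r 1 - (1 + ∑ i : Fin k, pq r (a i.succ - a i.castSucc))) ≤ 8 * δ ^ 2 * (M₀ + δ) := by
    have h1 : pq r 1 * ((G : ℝ) * (2 * δ ^ 2)) ≤ 2 / √t * (((M₀ + δ) * √t) * (2 * δ ^ 2)) := by
      apply mul_le_mul hp _ (by positivity) (by positivity)
      exact mul_le_mul_of_nonneg_right hGle (by positivity)
    have h2 : 2 / √(t : ℝ) * (((M₀ + δ) * √t) * (2 * δ ^ 2)) = 4 * δ ^ 2 * (M₀ + δ) := by
      field_simp
      ring
    linarith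
  -- step 2: the two segments
  have hb2 : |CG (fun z => φ (nb z)) r (seg G) - CG (fun z => φ (nb z)) r (seg m)| ≤ 4 * δ := by
    have hx : ∀ x : ℝ, x ≤ δ * √t → 2 * (x * pq r 1) ≤ 4 * δ := by
      intro x hx
      have h1 : x * pq r 1 ≤ (δ * √t) * (2 / √t) := by
        calc x * pq r 1 ≤ (δ * √t) * pq r 1 := mul_le_mul_of_nonneg_right hx hp0
          _ ≤ (δ * √t) * (2 / √t) := mul_le_mul_of_nonneg_left hp (by positivity)
      have h2 : (δ * √(t : ℝ)) * (2 / √t) = 2 * δ := by field_simp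
      linarith
    rcases le_total m G with h1 | h1
    · exact (seg_diff h hφ r h1).trans (hx _ hG2)
    · rw [abs_sub_comm]
      exact (seg_diff h hφ r h1).trans (hx _ (by linarith))
  -- step 3: the times
  obtain ⟨s, rfl⟩ : ∃ s, t = r + s := ⟨t - r, by omega⟩
  have hs3 := time_diff hφ r s (seg m)
  rw [mean_seg h, mean_seg h] at hs3
  have hb3 : 2 * (1 + (m : ℝ) * pq r 1 - (1 + m * pq (r + s) 1)) ≤ 8 * M₀ * δ := by
    have h1 := pq_time hr0' s
    have hsδ : (s : ℝ) ≤ 2 * δ * r := by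
      push_cast at hr hr2
      nlinarith
    have h2 : (s : ℝ) * (pq r 1 / r) ≤ 2 * δ * pq r 1 := by
      rw [mul_div_assoc', div_le_iff₀ hr0]
      nlinarith
    have h3 : (m : ℝ) * (pq r 1 - pq (r + s) 1) ≤ (M₀ * √((r + s : ℕ) : ℝ)) * (2 * δ * (2 / √((r + s : ℕ) : ℝ))) := by
      calc (m : ℝ) * (pq r 1 - pq (r + s) 1) ≤ m * (2 * δ * (2 / √((r + s : ℕ) : ℝ))) := by
            apply mul_le_mul_of_nonneg_left _ (Nat.cast_nonneg _)
            refine (h1.trans h2).trans ?_
            exact mul_le_mul_of_nonneg_left hp (by positivity)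
        _ ≤ _ := mul_le_mul_of_nonneg_right hm (by positivity)
    have h4 : (M₀ * √((r + s : ℕ) : ℝ)) * (2 * δ * (2 / √((r + s : ℕ) : ℝ))) = 4 * M₀ * δ := by
      field_simp
      ring
    linarith
  -- the sum
  have htri : |CG (fun z => φ (nb z)) r a - CG (fun z => φ (nb z)) (r + s) (seg m)| ≤
      |CG (fun z => φ (nb z)) r (seg G) - CG (fun z => φ (nb z)) r a| +
      |CG (fun z => φ (nb z)) r (seg G) - CG (fun z => φ (nb z)) r (seg m)| +
      |CG (fun z => φ (nb z)) r (seg m) - CG (fun z => φ (nb z)) (r + s) (seg m)| := by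
    rw [abs_sub_comm (CG (fun z => φ (nb z)) r (seg G)) (CG (fun z => φ (nb z)) r a)]
    have e1 := abs_sub_le (CG (fun z => φ (nb z)) r a) (CG (fun z => φ (nb z)) r (seg G))
      (CG (fun z => φ (nb z)) (r + s) (seg m))
    have e2 := abs_sub_le (CG (fun z => φ (nb z)) r (seg G)) (CG (fun z => φ (nb z)) r (seg m))
      (CG (fun z => φ (nb z)) (r + s) (seg m))
    linarith
  have hfin : 8 * δ ^ 2 * (M₀ + δ) + 4 * δ + 8 * M₀ * δ ≤ ε := by
    have h1 : 12 * (M₀ + 1) * δ ≤ ε := by
      rw [le_div_iff₀ (by positivity)] at hδ2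
      linarith
    have h2 : δ ^ 2 ≤ δ / 2 := by nlinarith
    have h3 : 8 * δ ^ 2 * (M₀ + δ) ≤ 8 * (δ / 2) * (M₀ + 1) := by
      apply mul_le_mul (by linarith) (by linarith) (by positivity) (by positivity)
    nlinarith
  linarith

end Pool.Agent.Q92.BT
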